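import Pool.Agent.Q92.FE.Zeta

/-! The discriminants in a relation between permutation characters. -/

set_option autoImplicit false
set_option linter.unusedSectionVars false

namespace Pool.Agent.Q92.FE

open NumberField IsDedekindDomain Filter Pool.Agent.W401.Cheb Pool.Agent.W353.NF Pool.Agent.Q5.BR
  Pool.Agent.Q92.PA Complex Topology
open scoped Classical ComplexConjugate

theorem prod_zpow_sum {ι : Type} (s : Finset ι) {a : ℂ} (ha : a ≠ 0) (k : ι → ℤ) :
    ∏ j ∈ s, a ^ (k j) = a ^ (∑ j ∈ s, k j) := by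
  induction s using Finset.induction_on with
  | empty => simp
  | insert b s hb ih => rw [Finset.prod_insert hb, Finset.sum_insert hb, ih, zpow_add₀ ha]

/-- two meromorphic functions that agree in a half-plane -/
theorem mero_eq {f g : ℂ → ℂ} (hf : MeromorphicOn f Set.univ) (hg : MeromorphicOn g Set.univ)
    {c : ℝ} (h : ∀ s : ℂ, c < s.re → f s = g s) (z : ℂ) : ∀ᶠ s in 𝓝[≠] z, f s = g s := by
  have hd : MeromorphicOn (fun s => f s - g s) Set.univ := fun s hs =>
    (hf s hs).fun_sub (hg s hs)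
  have hopen : IsOpen {s : ℂ | c < s.re} := isOpen_lt continuous_const Complex.continuous_re
  obtain ⟨y, hy⟩ : ∃ y : ℂ, c < y.re := ⟨((c + 1 : ℝ) : ℂ), by simp⟩
  have h2 : meromorphicOrderAt (fun s => f s - g s) y = ⊤ := by
    rw [meromorphicOrderAt_eq_top_iff]
    filter_upwards [mem_nhdsWithin_of_mem_nhds (hopen.mem_nhds hy)] with s hs
    rw [h s hs, sub_self]
  have h3 : meromorphicOrderAt (fun s => f s - g s) z = ⊤ := by
    by_contra h4
    have h5 := (hd.exists_meromorphicOrderAt_ne_top_iff_forall isConnected_univ).1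
      ⟨⟨z, Set.mem_univ z⟩, h4⟩
    exact h5 ⟨y, Set.mem_univ y⟩ h2
  rw [meromorphicOrderAt_eq_top_iff] at h3
  filter_upwards [h3] with s hs
  exact sub_eq_zero.1 hs

section
variable {K : Type} [Field K] [NumberField K] {ι : Type} [Fintype ι]

/-- the logarithm of the discriminant -/
noncomputable def ld (F : Type) [Field F] [NumberField F] : ℝ := Real.log |(discr F : ℝ)|

theorem discr_pos (F : Type) [Field F] [NumberField F] : 0 < |(discr F : ℝ)| := by
  rw [abs_pos]
  exact_mod_cast discr_ne_zero F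

theorem exp_ld (F : Type) [Field F] [NumberField F] (s : ℂ) :
    ((|(discr F : ℝ)| : ℝ) : ℂ) ^ s = Complex.exp (s * (ld F : ℂ)) := by
  have h0 := discr_pos F
  rw [Complex.cpow_def_of_ne_zero (by exact_mod_cast h0.ne'), ← Complex.ofReal_log h0.le, mul_comm]
  rfl

/-- **The relation between the discriminants.** -/
theorem disc_rel {X : ι → Ext K} {n : ι → ℤ} (h : Rel X n) :
    ∑ j, (n j : ℝ) * ld (X j).F = 0 := by
  choose U hU1 hU2 hU3 using fun j => zeta_fe (X j).F
  set Λ : ℝ := ∑ j, (n j : ℝ) * ld (X j).F with hΛ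
  set k : ℤ := ∑ j, n j with hk
  have key : ∀ s : ℂ, 1 < s.re → ∏ j, U j s ^ (n j) =
      (s * (s - 1)) ^ k * Complex.exp (s / 2 * (Λ : ℂ)) := by
    intro s hs
    have hs0 : s ≠ 0 := by rintro rfl; simp at hs; linarith
    have hs1 : s - 1 ≠ 0 := by
      intro h1
      rw [sub_eq_zero.1 h1] at hs
      simp at hs
    have hG0 : Complex.Gammaℝ s ≠ 0 := Complex.Gammaℝ_ne_zero_of_re_pos (by linarith)
    have hG1 : Complex.Gammaℝ (s + 1) ≠ 0 := Complex.Gammaℝ_ne_zero_of_re_pos (by
      rw [Complex.add_re, Complex.one_re]; linarith)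
    have h1 : ∀ j, U j s ^ (n j) = (s * (s - 1)) ^ (n j) *
        (Complex.exp ((n j : ℂ) * (s / 2 * (ld (X j).F : ℂ))) *
        (Complex.Gammaℝ s ^ (n j * (pl (X j).F : ℤ)) * Complex.Gammaℝ (s + 1) ^
          (n j * ((Module.finrank ℚ (X j).F : ℤ) - (pl (X j).F : ℤ)))) *
        Complex.exp ((n j : ℂ) * ∑' w : HeightOneSpectrum (𝓞 (X j).F), lz w s)) := by
      intro j
      rw [hU3 j s hs, zpow_one, mul_zpow, mul_zpow, mul_zpow, mul_zpow, mul_zpow, exp_ld,
        Complex.exp_int_mul, Complex.exp_int_mul, ← zpow_mul, ← zpow_mul, mul_comm (n j),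
        mul_comm (n j)]
    rw [Finset.prod_congr rfl fun j _ => h1 j]
    simp only [Finset.prod_mul_distrib]
    rw [prod_zpow_sum _ (mul_ne_zero hs0 hs1), prod_zpow_sum _ hG0, prod_zpow_sum _ hG1,
      ← Complex.exp_sum, ← Complex.exp_sum, place_rel h]
    have h2 : ∑ j, n j * ((Module.finrank ℚ (X j).F : ℤ) - (pl (X j).F : ℤ)) = 0 := by
      have h3 := degree_rel h
      have h4 := place_rel h
      rw [← sub_zero (0 : ℤ)]
      nth_rewrite 1 [← h3]
      rw [← h4, ← Finset.sum_sub_distrib]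
      exact Finset.sum_congr rfl fun j _ => by ring
    have h3 : ∑ j, (n j : ℂ) * ∑' w : HeightOneSpectrum (𝓞 (X j).F), lz w s = 0 := by
      refine sum_rel h (fun j w => lz w s) (fun j => lz_summable hs)
        (fun v d => -Complex.log (1 - ((Ideal.absNorm v.asIdeal ^ d : ℕ) : ℂ) ^ (-s))) ?_
      intro j w
      unfold lz zf
      rw [absNorm_rdeg (K := K) w]
    have h4 : ∑ j, (n j : ℂ) * (s / 2 * (ld (X j).F : ℂ)) = s / 2 * (Λ : ℂ) := by
      rw [hΛ]
      push_cast
      rw [Finset.mul_sum]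
      exact Finset.sum_congr rfl fun j _ => by ring
    rw [h2, h3, h4, zpow_zero, zpow_zero, Complex.exp_zero, mul_one, mul_one, mul_one]
  -- both sides are meromorphic
  have hm1 : MeromorphicOn (fun s => ∏ j, U j s ^ (n j)) Set.univ := fun s _ =>
    MeromorphicAt.fun_prod fun j _ => ((hU1 j).analyticAt s).meromorphicAt.fun_zpow (n j)
  have hm2 : MeromorphicOn (fun s : ℂ => (s * (s - 1)) ^ k * Complex.exp (s / 2 * (Λ : ℂ)))
      Set.univ := by
    intro s _
    refine MeromorphicAt.fun_mul (MeromorphicAt.fun_zpow ?_ k) ?_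
    · have h5 : Differentiable ℂ (fun s : ℂ => s * (s - 1)) := by fun_prop
      exact (h5.analyticAt s).meromorphicAt
    · have h5 : Differentiable ℂ (fun s : ℂ => Complex.exp (s / 2 * (Λ : ℂ))) := by fun_prop
      exact (h5.analyticAt s).meromorphicAt
  have h1 := mero_eq hm1 hm2 key (-1)
  have hopen : IsOpen {s : ℂ | s.re < 0} := isOpen_lt Complex.continuous_re continuous_const
  have hmem : {s : ℂ | s.re < 0} ∈ 𝓝[≠] (-1 : ℂ) := mem_nhdsWithin_of_mem_nhds
    (hopen.mem_nhds (by simp))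
  obtain ⟨s, hs, hs'⟩ := (h1.and hmem).exists
  have hre : s.re < 0 := hs'
  have h2 : 1 < (1 - conj s).re := by
    rw [Complex.sub_re, Complex.one_re, Complex.conj_re]
    linarith
  have h3 := key _ h2
  have h4 : ‖∏ j, U j s ^ (n j)‖ = ‖∏ j, U j (1 - conj s) ^ (n j)‖ := by
    rw [norm_prod, norm_prod]
    refine Finset.prod_congr rfl fun j _ => ?_
    rw [norm_zpow, norm_zpow, hU2 j s]
  rw [hs, h3, norm_mul, norm_mul, norm_zpow, norm_zpow, Complex.norm_exp, Complex.norm_exp] at h4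
  have h5 : ‖(1 - conj s) * (1 - conj s - 1)‖ = ‖s * (s - 1)‖ := by
    have h6 : (1 - conj s) * (1 - conj s - 1) = conj (s * (s - 1)) := by
      rw [map_mul, map_sub, map_one]
      ring
    rw [h6, Complex.norm_conj]
  rw [h5] at h4
  have hs0 : s ≠ 0 := by rintro rfl; simp at hre
  have hs1 : s - 1 ≠ 0 := by
    intro h1
    rw [sub_eq_zero.1 h1] at hre
    simp at hre
    linarith
  have h6 : ‖s * (s - 1)‖ ^ k ≠ 0 := zpow_ne_zero _ (norm_ne_zero_iff.2 (mul_ne_zero hs0 hs1))
  have h7 := Real.exp_injective (mul_left_cancel₀ h6 h4)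
  have h8 : (s / 2 * (Λ : ℂ)).re = s.re / 2 * Λ := by
    rw [Complex.re_mul_ofReal, Complex.div_ofNat_re]
  have h9 : ((1 - conj s) / 2 * (Λ : ℂ)).re = (1 - s.re) / 2 * Λ := by
    rw [Complex.re_mul_ofReal, Complex.div_ofNat_re, Complex.sub_re, Complex.one_re,
      Complex.conj_re]
  rw [h8, h9] at h7
  have h10 : (2 * s.re - 1) * Λ = 0 := by linarith
  rcases mul_eq_zero.1 h10 with h11 | h11
  · linarith
  · exact h11

end

end Pool.Agent.Q92.FE
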