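import Pool.Agent.Q92.PA.Inf

/-! Sums over all primes in a relation between permutation characters, without exceptions. -/

set_option autoImplicit false
set_option linter.unusedSectionVars false

namespace Pool.Agent.Q92.FE

open NumberField IsDedekindDomain Filter Pool.Agent.W401.Cheb Pool.Agent.W353.NF Pool.Agent.Q5.BR
  Pool.Agent.Q92.PA
open scoped Classical

section
variable {K : Type} [Field K] [NumberField K] {ι : Type} [Fintype ι]

/-- **The sum over all primes.** -/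
theorem sum_rel {X : ι → Ext K} {n : ι → ℤ} (h : Rel X n)
    (ℓ : ∀ j, HeightOneSpectrum (𝓞 (X j).F) → ℂ) (hs : ∀ j, Summable (ℓ j))
    (Λ : HeightOneSpectrum (𝓞 K) → ℕ → ℂ) (hΛ : ∀ j w, ℓ j w = Λ (w.under (𝓞 K)) (rdeg K w)) :
    ∑ j, (n j : ℂ) * ∑' w, ℓ j w = 0 := by
  have h1 : HasSum (fun v : HeightOneSpectrum (𝓞 K) => ∑ j, (n j : ℂ) *
      ∑ w ∈ above (X j).F v, ℓ j w) (∑ j, (n j : ℂ) * ∑' w, ℓ j w) :=
    hasSum_sum fun j _ => (hasSum_above (hs j)).mul_left _
  have h2 : (fun v : HeightOneSpectrum (𝓞 K) => ∑ j, (n j : ℂ) *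
      ∑ w ∈ above (X j).F v, ℓ j w) = fun _ => 0 := by
    funext v
    rw [← rel_sum (fun d => rel_degrees_all h v d) (Λ v)]
    refine Finset.sum_congr rfl fun j _ => ?_
    congr 1
    refine Finset.sum_congr rfl fun w hw => ?_
    rw [hΛ, mem_above.1 hw]
  rw [h2] at h1
  exact h1.unique hasSum_zero

/-- **Finite sums over the primes.** -/
theorem fin_rel {X : ι → Ext K} {n : ι → ℤ} (h : Rel X n)
    (ℓ : ∀ j, HeightOneSpectrum (𝓞 (X j).F) → ℂ)
    (Λ : HeightOneSpectrum (𝓞 K) → ℕ → ℂ) (hΛ : ∀ j w, ℓ j w = Λ (w.under (𝓞 K)) (rdeg K w))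
    (T : Finset (HeightOneSpectrum (𝓞 K))) :
    ∑ j, (n j : ℂ) * ∑ v ∈ T, ∑ w ∈ above (X j).F v, ℓ j w = 0 := by
  simp only [Finset.mul_sum]
  rw [Finset.sum_comm]
  refine Finset.sum_eq_zero fun v _ => ?_
  rw [← rel_sum (fun d => rel_degrees_all h v d) (Λ v)]
  refine Finset.sum_congr rfl fun j _ => ?_
  rw [Finset.mul_sum]
  refine Finset.sum_congr rfl fun w hw => ?_
  rw [hΛ, mem_above.1 hw]

/-- the relation with the base field as a member -/
noncomputable def cons (X : ι → Ext K) : Option ι → Ext K := fun o => match o with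
  | none => Ext.mk K
  | some j => X j

/-- its coefficients -/
def coef (m : ℤ) (n : ι → ℤ) : Option ι → ℤ := fun o => match o with
  | none => -m
  | some j => n j

theorem cons_rel {X : ι → Ext K} {n : ι → ℤ} {m : ℤ}
    (h : ∀ σ : GK K, ∑ j, n j * (fixn K (X j).F σ : ℤ) = m) : Rel (cons X) (coef m n) := by
  intro σ
  rw [Fintype.sum_option]
  change -m * (fixn K K σ : ℤ) + ∑ j, n j * (fixn K (X j).F σ : ℤ) = 0
  rw [h σ, fixn_self]
  ring

/-- the degrees in a relation -/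
theorem degree_rel {X : ι → Ext K} {n : ι → ℤ} (h : Rel X n) :
    ∑ j, n j * (Module.finrank ℚ (X j).F : ℤ) = 0 := by
  have h0 := Pool.Agent.Q5.VL.rel_up (K := ℚ) (F := K) (Y := X) (n := n) (m := 0) h
  have hz : ∀ σ : GK ℚ, ∑ o, n o * (fixn ℚ (X o).F σ : ℤ) = 0 := by
    intro σ
    rw [h0 σ]
    ring
  have h2 := Pool.Agent.Q5.DP.deg_rel (K := ℚ) (Module.finrank_self ℚ) hz
  rw [← h2]
  refine Finset.sum_congr rfl fun j _ => ?_
  rw [Nat.card_eq_fintype_card, NumberField.Embeddings.card]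

/-- the infinite places in a relation -/
theorem place_rel {X : ι → Ext K} {n : ι → ℤ} (h : Rel X n) :
    ∑ j, n j * (pl (X j).F : ℤ) = 0 := by
  have h1 := pl_rel (F := K) (Y := X) (n := n) (m := 0) h
  rw [h1, zero_mul]

end

end Pool.Agent.Q92.FE
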