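import Pool.Agent.Q246.Unram2
import Pool.Agent.Y690.EP
import Pool.Agent.Q92.FE.Sum

/-! The discriminants in a relation between permutation characters, from the functional equations of the
Dedekind zeta functions. -/

set_option autoImplicit false
set_option linter.unusedSectionVars false

namespace Pool.Agent.Q92.FE

open NumberField IsDedekindDomain Filter Pool.Agent.W401.Cheb Pool.Agent.W353.NF Pool.Agent.Q5.BR
  Pool.Agent.Q92.PA Complex Topology
open Pool.Agent.Y773 (LI GG)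
open Pool.Agent.Q246.Unr (UC Triv)
open scoped Classical ComplexConjugate

section
variable (F : Type) [Field F] [NumberField F]

/-- the trivial character of the ideals -/
noncomputable def tr : Ideal (𝓞 F) →*₀ ℂ where
  toFun 𝔞 := if 𝔞 = ⊥ then 0 else 1
  map_zero' := if_pos rfl
  map_one' := if_neg (by
    rw [Ideal.one_eq_top]
    exact (bot_ne_top (α := Ideal (𝓞 F))).symm)
  map_mul' 𝔞 𝔟 := by
    by_cases ha : 𝔞 = ⊥
    · rw [if_pos ha, ha, Ideal.bot_mul, if_pos rfl, zero_mul]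
    by_cases hb : 𝔟 = ⊥
    · rw [if_pos hb, hb, Ideal.mul_bot, if_pos rfl, mul_zero]
    have hab : 𝔞 * 𝔟 ≠ ⊥ := by
      rw [Ne, Ideal.mul_eq_bot]
      tauto
    rw [if_neg ha, if_neg hb, if_neg hab, one_mul]

theorem tr_ne {𝔞 : Ideal (𝓞 F)} (h : 𝔞 ≠ ⊥) : tr F 𝔞 = 1 := if_neg h

theorem tr_le (𝔞 : Ideal (𝓞 F)) : ‖tr F 𝔞‖ ≤ 1 := by
  by_cases h : 𝔞 = ⊥
  · have h1 : tr F 𝔞 = 0 := if_pos h
    rw [h1, norm_zero]
    exact zero_le_one
  · rw [tr_ne F h, norm_one]

theorem tr_uc : UC (fun _ : InfinitePlace F => 0) (tr F) where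
  he := fun _ => Nat.zero_le _
  cpx := fun _ _ => rfl
  ne := fun 𝔞 h => by rw [tr_ne F h]; exact one_ne_zero
  sig := fun x hx => by
    have h1 : Ideal.span {x} ≠ (⊥ : Ideal (𝓞 F)) := by
      rw [Ne, Ideal.span_singleton_eq_bot]
      exact hx
    rw [tr_ne F h1]
    unfold Pool.Agent.Y773.G.sg
    exact (Finset.prod_eq_one fun w _ => pow_zero _).symm

theorem tr_triv : Triv (tr F) := fun _ h => tr_ne F h

variable {F}

theorem nmz (w : HeightOneSpectrum (𝓞 F)) : (Ideal.absNorm w.asIdeal : ℂ) ≠ 0 := by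
  have h := Pool.Agent.H921R2.TatePole.nm_ne_zero w
  exact_mod_cast h

/-- the Euler factor of the zeta function -/
noncomputable def zf (w : HeightOneSpectrum (𝓞 F)) (s : ℂ) : ℂ :=
  (Ideal.absNorm w.asIdeal : ℂ) ^ (-s)

theorem zf_norm (w : HeightOneSpectrum (𝓞 F)) (s : ℂ) :
    ‖zf w s‖ = (Ideal.absNorm w.asIdeal : ℝ) ^ (-s.re) := by
  have h0 : 0 < Ideal.absNorm w.asIdeal :=
    Nat.pos_of_ne_zero (Pool.Agent.H921R2.TatePole.nm_ne_zero w)
  unfold zf
  rw [Complex.norm_natCast_cpow_of_pos h0, Complex.neg_re]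

theorem zf_summable {s : ℂ} (hs : 1 < s.re) :
    Summable fun w : HeightOneSpectrum (𝓞 F) => zf w s := by
  refine Summable.of_norm ?_
  simp only [zf_norm]
  exact Pool.Agent.H921R2.TatePole.nm_summable (K := F) hs

theorem zf_lt {s : ℂ} (hs : 1 < s.re) (w : HeightOneSpectrum (𝓞 F)) : ‖zf w s‖ < 1 := by
  rw [zf_norm]
  have h2 : (2 : ℝ) ≤ (Ideal.absNorm w.asIdeal : ℝ) := by
    exact_mod_cast Pool.Agent.H921R2.TatePole.two_le_nm w
  exact Real.rpow_lt_one_of_one_lt_of_neg (by linarith) (by linarith)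

theorem zf_ne {s : ℂ} (hs : 1 < s.re) (w : HeightOneSpectrum (𝓞 F)) : 1 - zf w s ≠ 0 := by
  intro h
  have h1 := zf_lt hs w
  rw [← sub_eq_zero.1 h, norm_one] at h1
  exact lt_irrefl _ h1

/-- the logarithm of the Euler factor -/
noncomputable def lz (w : HeightOneSpectrum (𝓞 F)) (s : ℂ) : ℂ := -Complex.log (1 - zf w s)

theorem lz_summable {s : ℂ} (hs : 1 < s.re) :
    Summable fun w : HeightOneSpectrum (𝓞 F) => lz w s :=
  (zf_summable hs).clog_one_sub.neg

/-- **The Euler product of the zeta function.** -/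
theorem LI_exp {s : ℂ} (hs : 1 < s.re) :
    LI (tr F) s = Complex.exp (∑' w : HeightOneSpectrum (𝓞 F), lz w s) := by
  have h1 := Pool.Agent.Y690.hasProd_ideal (R := 𝓞 F)
    (g := fun 𝔞 : Ideal (𝓞 F) => tr F 𝔞 * ((Ideal.absNorm 𝔞 : ℕ) : ℂ) ^ (-s))
    ⟨by rw [show tr F ⊥ = 0 from if_pos rfl, zero_mul], by
        rw [tr_ne F (bot_ne_top (α := Ideal (𝓞 F))).symm, Ideal.absNorm_top, Nat.cast_one,
          Complex.one_cpow, one_mul],
      fun I J => by
        simp only [map_mul, Nat.cast_mul]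
        rw [Complex.natCast_mul_natCast_cpow]
        ring⟩
    (Pool.Agent.Y772.DK.term_summable (a := fun 𝔞 => tr F 𝔞) (map_zero _) (tr_le F) hs)
  have h2 : LI (tr F) s = ∏' w : HeightOneSpectrum (𝓞 F), (1 - zf w s)⁻¹ := by
    rw [show LI (tr F) s = ∑' 𝔞 : Ideal (𝓞 F), tr F 𝔞 * ((Ideal.absNorm 𝔞 : ℕ) : ℂ) ^ (-s) from rfl,
      ← h1.tprod_eq]
    refine tprod_congr fun w => ?_
    rw [tr_ne F w.ne_bot, one_mul]
    rfl
  rw [h2, ← (lz_summable hs).hasSum.cexp.tprod_eq]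
  refine tprod_congr fun w => ?_
  change _ = Complex.exp (lz w s)
  unfold lz
  rw [Complex.exp_neg, Complex.exp_log (zf_ne hs w)]

/-- the number of the embeddings with exponent `0` -/
theorem card_ex : Nat.card {φ : F →+* ℂ // Pool.Agent.Y773.G.ex (fun _ => 0) φ = 0} = pl F := by
  unfold pl
  have h1 : ∀ φ : F →+* ℂ, Pool.Agent.Y773.G.ex (fun _ => 0) φ = 0 ↔
      (InfinitePlace.mk φ).embedding = φ := by
    intro φ
    unfold Pool.Agent.Y773.G.ex
    by_cases hr : (InfinitePlace.mk φ).IsReal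
    · rw [if_pos hr]
      refine iff_of_true rfl ?_
      have h2 : ComplexEmbedding.IsReal φ := (InfinitePlace.isReal_mk_iff).1 hr
      exact InfinitePlace.embedding_mk_eq_of_isReal h2
    · rw [if_neg hr]
      by_cases he : (InfinitePlace.mk φ).embedding = φ
      · rw [if_pos he]
        exact iff_of_true rfl he
      · rw [if_neg he]
        exact iff_of_false one_ne_zero he
  refine Nat.card_congr ((Equiv.subtypeEquivRight h1).trans ?_)
  exact
    { toFun := fun φ => InfinitePlace.mk φ.1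
      invFun := fun w => ⟨w.embedding, by rw [InfinitePlace.mk_embedding]⟩
      left_inv := fun φ => Subtype.ext φ.2
      right_inv := fun w => InfinitePlace.mk_embedding w }

theorem ex_le (φ : F →+* ℂ) : Pool.Agent.Y773.G.ex (fun _ => 0) φ = 0 ∨
    Pool.Agent.Y773.G.ex (fun _ => 0) φ = 1 := by
  unfold Pool.Agent.Y773.G.ex
  split_ifs <;> simp

/-- the Gamma factor -/
theorem gam_eq (s : ℂ) : ∏ φ : F →+* ℂ, Complex.Gammaℝ (s + Pool.Agent.Y773.G.ex (fun _ => 0) φ) =
    Complex.Gammaℝ s ^ ((pl F : ℤ)) * Complex.Gammaℝ (s + 1) ^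
      ((Module.finrank ℚ F : ℤ) - (pl F : ℤ)) := by
  have h0 : Fintype.card (F →+* ℂ) = Module.finrank ℚ F := NumberField.Embeddings.card F ℂ
  have h1 : (Finset.univ.filter fun φ : F →+* ℂ =>
      Pool.Agent.Y773.G.ex (fun _ => 0) φ = 0).card = pl F := by
    rw [← card_ex, Nat.card_eq_fintype_card, Fintype.card_subtype]
  have h2 : (Finset.univ.filter fun φ : F →+* ℂ =>
      ¬ Pool.Agent.Y773.G.ex (fun _ => 0) φ = 0).card = Module.finrank ℚ F - pl F := by
    have h3 := Finset.card_filter_add_card_filter_not (s := (Finset.univ : Finset (F →+* ℂ)))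
      (fun φ => Pool.Agent.Y773.G.ex (fun _ => 0) φ = 0)
    rw [Finset.card_univ, h0, h1] at h3
    omega
  have hle : pl F ≤ Module.finrank ℚ F := by
    rw [← h1, ← h0]
    exact Finset.card_le_univ _
  rw [← Finset.prod_filter_mul_prod_filter_not Finset.univ
    (fun φ => Pool.Agent.Y773.G.ex (fun _ => 0) φ = 0)]
  congr 1
  · rw [Finset.prod_congr rfl (g := fun _ => Complex.Gammaℝ s), Finset.prod_const, h1,
      zpow_natCast]
    intro φ hφ
    rw [(Finset.mem_filter.1 hφ).2, Nat.cast_zero, add_zero]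
  · rw [Finset.prod_congr rfl (g := fun _ => Complex.Gammaℝ (s + 1)), Finset.prod_const, h2,
      ← zpow_natCast, Nat.cast_sub hle]
    intro φ hφ
    rw [(ex_le φ).resolve_left (Finset.mem_filter.1 hφ).2, Nat.cast_one]

/-- **The functional equation of the Dedekind zeta function.** -/
theorem zeta_fe (F : Type) [Field F] [NumberField F] : ∃ U : ℂ → ℂ, Differentiable ℂ U ∧
    (∀ s : ℂ, ‖U s‖ = ‖U (1 - conj s)‖) ∧
    ∀ s : ℂ, 1 < s.re → U s = (s * (s - 1)) ^ (1 : ℤ) *
      (((|(discr F : ℝ)| : ℝ) : ℂ) ^ (s / 2) *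
        (Complex.Gammaℝ s ^ ((pl F : ℤ)) * Complex.Gammaℝ (s + 1) ^
      ((Module.finrank ℚ F : ℤ) - (pl F : ℤ))) *
        Complex.exp (∑' w : HeightOneSpectrum (𝓞 F), lz w s)) := by
  obtain ⟨U, w, h1, h2, h3, h4, -⟩ := (tr_uc F).fe
  refine ⟨U, h1, fun s => ?_, fun s hs => ?_⟩
  · rw [h4 s, norm_mul, h2, one_mul, Complex.norm_conj]
  · rw [h3 s hs, if_pos (tr_triv F), pow_one, zpow_one, LI_exp hs]
    unfold GG
    rw [gam_eq]
    have h5 : ((Ideal.absNorm (differentIdeal ℤ (𝓞 F)) : ℝ) : ℂ) = ((|(discr F : ℝ)| : ℝ) : ℂ) := by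
      rw [NumberField.absNorm_differentIdeal (K := F)]
      congr 1
      rw [Nat.cast_natAbs, Int.cast_abs]
    rw [h5]

end

end Pool.Agent.Q92.FE
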